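import Mathlib

/-!
# Regulators of smooth schemes over number fields

Axioms for the regulator `H^i_M(X, ℚ(j)) → H^i_H(X, ℚ(j))` from motivic cohomology to absolute Hodge
cohomology, for smooth schemes `X` over `ℂ` that can be defined over a number field: isomorphisms, open and
closed subschemes, Jouanolou's device, Gysin sequences in affine spaces.
-/

set_option autoImplicit false

open CategoryTheory CategoryTheory.Limits AlgebraicGeometry MvPolynomial

universe u

namespace Pool.Agent.Run7.h954.DR

/-- Schemes over the ring `R`. -/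
abbrev Sch (R : Type) [CommRing R] : Type 1 := Over (Spec (CommRingCat.of R))

/-- The affine scheme `Spec A` over `R`. -/
noncomputable def aff (R A : Type) [CommRing R] [CommRing A] [Algebra R A] : Sch R :=
  Over.mk (Spec.map (CommRingCat.ofHom (algebraMap R A)))

/-- The base change of a scheme over `ℚ` to `ℂ`. -/
noncomputable def Cx (Y : Sch ℚ) : Sch ℂ :=
  (Over.pullback (Spec.map (CommRingCat.ofHom (algebraMap ℚ ℂ)))).obj Y

/-- `Spec ℂ`. -/
noncomputable def pt : Sch ℂ := Over.mk (𝟙 _)

/-- Connected smooth separated schemes of finite type over `ℚ`. -/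
structure SmoothVar (Y : Sch ℚ) : Prop where
  smooth : Smooth Y.hom
  separated : IsSeparated Y.hom
  quasiCompact : QuasiCompact Y.hom
  connected : ConnectedSpace Y.left

/-- `X` is isomorphic to an open and closed subscheme of `Y ×_ℚ ℂ`, where `Y` is a connected smooth separated
scheme of finite type over `ℚ`. All connected smooth separated schemes of finite type over `ℂ` which can be
defined over a number field `K` are of this form: `Y` is the scheme over `K`, considered over `ℚ`. -/
def OverNumberField (X : Sch ℂ) : Prop :=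
  ∃ Y : Sch ℚ, SmoothVar Y ∧ ∃ k : X ⟶ Cx Y, IsOpenImmersion k.left ∧ IsClosedImmersion k.left

/-- Groups `M i j X` (to be thought of as `H^i_M(X, ℚ(j))`), topological groups `H i j X` (to be thought of as
`H^i_H(X, ℚ(j))`) and homomorphisms `r i j X` (regulators), for schemes `X` over `ℂ`. -/
structure Theory where
  M : ℤ → ℤ → Sch ℂ → Type u
  H : ℤ → ℤ → Sch ℂ → Type u
  [groupM : ∀ i j X, AddCommGroup (M i j X)]
  [groupH : ∀ i j X, AddCommGroup (H i j X)]
  [topH : ∀ i j X, TopologicalSpace (H i j X)]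
  r : ∀ i j X, M i j X →+ H i j X

attribute [instance] Theory.groupM Theory.groupH Theory.topH

variable (T : Theory.{u})

/-- The regulator of `X` in bidegree `(i, j)` has dense image. -/
def Theory.Dense (i j : ℤ) (X : Sch ℂ) : Prop := DenseRange (T.r i j X)

/-- The homomorphisms `r` and `s` are isomorphic, by a homeomorphism of the targets. -/
def IsoHom {A B A' B' : Type u} [AddCommGroup A] [AddCommGroup B] [AddCommGroup A'] [AddCommGroup B']
    [TopologicalSpace B] [TopologicalSpace B'] (r : A →+ B) (s : A' →+ B') : Prop :=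
  ∃ (a : A ≃+ A') (b : B ≃+ B'), Continuous b ∧ Continuous b.symm ∧ ∀ x, s (a x) = b (r x)

/-- The regulator of `X` in bidegree `(i, j)` is isomorphic to the one of `Y` in bidegree `(i', j')`. -/
def Theory.Same (i j : ℤ) (X : Sch ℂ) (i' j' : ℤ) (Y : Sch ℂ) : Prop :=
  IsoHom (T.r i j X) (T.r i' j' Y)

/-- The regulator of `X` in bidegree `(i, j)` is the direct sum of the one of `Y` in bidegree `(i₁, j₁)` and the
one of `Z` in bidegree `(i₂, j₂)`. -/
def Theory.Sum (i j : ℤ) (X : Sch ℂ) (i₁ j₁ : ℤ) (Y : Sch ℂ) (i₂ j₂ : ℤ) (Z : Sch ℂ) : Prop :=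
  IsoHom (T.r i j X) ((T.r i₁ j₁ Y).prodMap (T.r i₂ j₂ Z))

/-- The polynomial `∑_l x_{n+l} f_l(x_1, ..., x_n) - 1` in `n + m` variables. -/
noncomputable def hyp {R : Type} [CommRing R] {n m : ℕ} (f : Fin m → MvPolynomial (Fin n) R) :
    MvPolynomial (Fin (n + m)) R :=
  ∑ l, X (Fin.natAdd n l) * rename (Fin.castAdd m) (f l) - 1

/-- The ring `R[x_1, ..., x_n] / (f_1, ..., f_m)`. -/
abbrev Quo {R : Type} [CommRing R] {n m : ℕ} (f : Fin m → MvPolynomial (Fin n) R) : Type :=
  MvPolynomial (Fin n) R ⧸ Ideal.span (Set.range f)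

/-- The ring `R[x_1, ..., x_n] / (F)` of functions on the hypersurface `F = 0`. -/
abbrev Hyp {R : Type} [CommRing R] {n : ℕ} (F : MvPolynomial (Fin n) R) : Type :=
  MvPolynomial (Fin n) R ⧸ Ideal.span {F}

/-- The complement of the hypersurface `F = 0` in the affine space of dimension `n` over `ℂ`. -/
noncomputable def compl {n : ℕ} (F : MvPolynomial (Fin n) ℚ) : Sch ℂ :=
  Cx (aff ℚ (Localization.Away F))

/-- Isomorphic schemes have isomorphic regulators. -/
def Theory.Invariant : Prop :=
  ∀ (i j : ℤ) (X Y : Sch ℂ), Nonempty (X ≅ Y) → T.Same i j X i j Y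

/-- If `X` is open and closed in `Z = Y ×_ℚ ℂ` then the regulator of `Z` is the direct sum of the regulators of
`X` and its complement. -/
def Theory.Clopen : Prop :=
  ∀ (i j : ℤ) (Y : Sch ℚ), SmoothVar Y → ∀ (X : Sch ℂ) (k : X ⟶ Cx Y), IsOpenImmersion k.left →
    IsClosedImmersion k.left → ∃ X', T.Sum i j (Cx Y) i j X i j X'

/-- Jouanolou's device: there is an affine bundle over `Y` which is an affine scheme `Spec A`; homotopy
invariance. -/
def Theory.Jouanolou : Prop :=
  ∀ Y : Sch ℚ, SmoothVar Y → ∃ (A : Type) (_ : CommRing A) (_ : Algebra ℚ A), IsDomain A ∧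
    Algebra.FiniteType ℚ A ∧ Algebra.Smooth ℚ A ∧ ∀ i j, T.Same i j (Cx Y) i j (Cx (aff ℚ A))

/-- The Gysin sequence of a smooth irreducible closed subscheme `X` of codimension `c ≥ 1` of the affine
space of dimension `n`, which is given by the equations `f_l(x) = 0`. It splits as the complement `U` has
rational points, and the regulators of `U` are isomorphic to the ones of the affine bundle
`∑ w_l f_l(x) = 1` over `U`. -/
def Theory.Gysin : Prop :=
  ∀ (n m c : ℕ) (f : Fin m → MvPolynomial (Fin n) ℚ), IsDomain (Quo f) → Algebra.Smooth ℚ (Quo f) →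
    1 ≤ c → ringKrullDim (Quo f) + c = n → ∀ i j : ℤ,
      T.Sum (i + 2 * c - 1) (j + c) (Cx (aff ℚ (Hyp (hyp f)))) (i + 2 * c - 1) (j + c) pt
        i j (Cx (aff ℚ (Quo f)))

/-- The Gysin sequence of a smooth hypersurface `F = 0` in an affine space. -/
def Theory.Divisor : Prop :=
  ∀ (n : ℕ) (F : MvPolynomial (Fin n) ℚ), F ≠ 0 → Algebra.Smooth ℚ (Hyp F) → ∀ i j : ℤ,
    T.Sum (i + 1) (j + 1) (compl F) (i + 1) (j + 1) pt i j (Cx (aff ℚ (Hyp F)))

/-- Known properties of the regulators from motivic cohomology to absolute Hodge cohomology. -/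
structure IsRegulator : Prop where
  iso : T.Invariant
  clopen : T.Clopen
  jouanolou : T.Jouanolou
  gysin : T.Gysin
  divisor : T.Divisor
  /-- Density for `Spec ℂ` (Borel's theorem). -/
  point : ∀ i j : ℤ, T.Dense i j pt

end Pool.Agent.Run7.h954.DR
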