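import Pool.Agent.Run7.h954.DR.Pres

/-!
# The hypersurface `∑_l x_{n+l} f_l(x_1, ..., x_n) = 1`
-/

set_option autoImplicit false

open MvPolynomial

namespace Pool.Agent.Run7.h954.DR

variable {R : Type} [CommRing R] {n m : ℕ} (f : Fin m → MvPolynomial (Fin n) R)

lemma hyp_deg (hf : ∀ l, (f l).totalDegree ≤ 2) : (hyp f).totalDegree ≤ 3 := by
  rw [hyp]
  refine (totalDegree_sub _ _).trans (max_le ?_ ?_)
  · refine totalDegree_finsetSum_le fun l _ => ?_
    refine (totalDegree_mul _ _).trans ?_
    have h1 := totalDegree_X_le' (R := R) (Fin.natAdd n l)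
    have h2 := (totalDegree_rename_le (Fin.castAdd m) (f l)).trans (hf l)
    omega
  · rw [totalDegree_one]
    norm_num

lemma hyp_ne_zero [Nontrivial R] : hyp f ≠ 0 := by
  intro h
  have h1 := congrArg (eval (fun _ => (0 : R))) h
  rw [hyp, map_sub, map_sum, map_one, map_zero] at h1
  rw [Finset.sum_eq_zero, zero_sub, neg_eq_zero] at h1
  · exact one_ne_zero h1
  · intro l _
    rw [map_mul, eval_X, zero_mul]

lemma smooth_hyp : Algebra.Smooth R (Hyp (hyp f)) where
  formallySmooth := by
    refine .of_comp_surjective fun B _ _ I hI g => ?_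
    let π : MvPolynomial (Fin (n + m)) R →ₐ[R] Hyp (hyp f) := Ideal.Quotient.mkₐ R _
    choose y hy using fun v : Fin (n + m) => Ideal.Quotient.mkₐ_surjective R I (g (π (X v)))
    let s : B := ∑ l, y (Fin.natAdd n l) * aeval (fun k : Fin n => y (Fin.castAdd m k)) (f l)
    have hg : ∀ q : MvPolynomial (Fin (n + m)) R,
        Ideal.Quotient.mkₐ R I (aeval y q) = g (π q) := by
      intro q
      have h : (Ideal.Quotient.mkₐ R I).comp (aeval y) = g.comp π := by
        apply MvPolynomial.algHom_ext
        intro v
        rw [AlgHom.comp_apply, aeval_X, hy]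
        rfl
      exact DFunLike.congr_fun h q
    have hs0 : aeval y (hyp f) = s - 1 := by
      rw [hyp, map_sub, map_sum, map_one]
      congr 1
      refine Finset.sum_congr rfl fun l _ => ?_
      rw [map_mul, aeval_X, aeval_rename]
      rfl
    have hπ : π (hyp f) = 0 :=
      Ideal.Quotient.eq_zero_iff_mem.mpr (Ideal.subset_span rfl)
    have hs : Ideal.Quotient.mkₐ R I (s - 1) = 0 := by
      rw [← hs0, hg, hπ, map_zero]
    have hsI : s - 1 ∈ I := Ideal.Quotient.eq_zero_iff_mem.mp hs
    have hsq : (s - 1) * (s - 1) = 0 := by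
      have h1 : (s - 1) * (s - 1) ∈ I ^ 2 := by
        rw [pow_two]
        exact Ideal.mul_mem_mul hsI hsI
      rw [hI] at h1
      exact h1
    let y' : Fin (n + m) → B := Fin.addCases (fun k => y (Fin.castAdd m k))
      (fun l => (2 - s) * y (Fin.natAdd n l))
    have hy1 : ∀ k, y' (Fin.castAdd m k) = y (Fin.castAdd m k) := fun k => Fin.addCases_left k
    have hy2 : ∀ l, y' (Fin.natAdd n l) = (2 - s) * y (Fin.natAdd n l) := fun l =>
      Fin.addCases_right l
    let h : MvPolynomial (Fin (n + m)) R →ₐ[R] B := aeval y'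
    have h2 : h (hyp f) = 0 := by
      change aeval y' (hyp f) = 0
      rw [hyp, map_sub, map_sum, map_one]
      have h3 : ∀ l, aeval y' (X (Fin.natAdd n l) * rename (Fin.castAdd m) (f l)) =
          (2 - s) * (y (Fin.natAdd n l) * aeval (fun k : Fin n => y (Fin.castAdd m k)) (f l)) := by
        intro l
        have h5 : y' ∘ Fin.castAdd m = fun k => y (Fin.castAdd m k) := funext hy1
        rw [map_mul, aeval_X, aeval_rename, hy2, mul_assoc, h5]
      rw [Finset.sum_congr rfl fun l _ => h3 l, ← Finset.mul_sum]
      change (2 - s) * s - 1 = 0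
      linear_combination -hsq
    have h4 : ∀ a ∈ Ideal.span {hyp f}, h a = 0 := by
      intro a ha
      have : Ideal.span {hyp f} ≤ RingHom.ker h := by
        rw [Ideal.span_le, Set.singleton_subset_iff]
        exact h2
      exact this ha
    refine ⟨Ideal.Quotient.liftₐ _ h h4, ?_⟩
    apply Ideal.Quotient.algHom_ext
    apply MvPolynomial.algHom_ext
    intro v
    change Ideal.Quotient.mkₐ R I (h (X v)) = g (π (X v))
    rw [← hy v]
    change Ideal.Quotient.mkₐ R I (aeval y' (X v)) = _
    rw [aeval_X]
    induction v using Fin.addCases with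
    | left k => rw [hy1]
    | right l =>
      rw [hy2, map_mul]
      have h5 : Ideal.Quotient.mkₐ R I (2 - s) = 1 := by
        have h6 : (2 : B) - s = 1 - (s - 1) := by ring
        rw [h6, map_sub, hs, map_one, sub_zero]
      rw [h5, one_mul]
  finitePresentation := Algebra.FinitePresentation.quotient ⟨{hyp f}, by rw [Finset.coe_singleton]⟩

/-- The complement of a hypersurface is smooth. -/
lemma smooth_away (F : MvPolynomial (Fin n) R) : Algebra.Smooth R (Localization.Away F) := by
  have : Algebra.Smooth R (MvPolynomial (Fin n) R) := ⟨inferInstance, inferInstance⟩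
  have : Algebra.Smooth (MvPolynomial (Fin n) R) (Localization.Away F) :=
    Algebra.Smooth.of_isLocalization_Away F
  exact Algebra.Smooth.comp R (MvPolynomial (Fin n) R) (Localization.Away F)

end Pool.Agent.Run7.h954.DR
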