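import Pool.Agent.Run7.h954.DR.Hyp

/-!
# Density of regulators and complements of cubic hypersurfaces
-/

set_option autoImplicit false

open CategoryTheory CategoryTheory.Limits AlgebraicGeometry MvPolynomial

universe u

namespace Pool.Agent.Run7.h954.DR

variable {T : Theory.{u}}

lemma dense_of_surj {A B : Type*} [TopologicalSpace A] [TopologicalSpace B] {C : Type*} {g : C → A} {h : A → B}
    (hg : DenseRange g) (hc : Continuous h) (hs : Function.Surjective h) : DenseRange (h ∘ g) :=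
  (hs.denseRange).comp hg hc

lemma same_imp {i j i' j' : ℤ} {X Y : Sch ℂ} (h : T.Same i j X i' j' Y) (hX : T.Dense i j X) :
    T.Dense i' j' Y := by
  obtain ⟨a, b, hb, _, hab⟩ := h
  have h1 : DenseRange (b ∘ T.r i j X) := dense_of_surj hX hb b.surjective
  have h2 : (b ∘ T.r i j X) = T.r i' j' Y ∘ a := by
    funext x
    exact (hab x).symm
  rw [h2] at h1
  refine h1.mono ?_
  rintro _ ⟨x, rfl⟩
  exact ⟨a x, rfl⟩

lemma same_symm {i j i' j' : ℤ} {X Y : Sch ℂ} (h : T.Same i j X i' j' Y) : T.Same i' j' Y i j X := by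
  obtain ⟨a, b, hb, hb', hab⟩ := h
  refine ⟨a.symm, b.symm, hb', hb, fun x => ?_⟩
  apply b.injective
  rw [b.apply_symm_apply, ← hab, a.apply_symm_apply]

lemma same_iff {i j i' j' : ℤ} {X Y : Sch ℂ} (h : T.Same i j X i' j' Y) :
    T.Dense i j X ↔ T.Dense i' j' Y := ⟨same_imp h, same_imp (same_symm h)⟩

lemma sum_iff {i j i₁ j₁ i₂ j₂ : ℤ} {X Y Z : Sch ℂ} (h : T.Sum i j X i₁ j₁ Y i₂ j₂ Z) :
    T.Dense i j X ↔ T.Dense i₁ j₁ Y ∧ T.Dense i₂ j₂ Z := by
  obtain ⟨a, b, hb, hb', hab⟩ := h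
  have h2 : (b ∘ T.r i j X) = Prod.map (T.r i₁ j₁ Y) (T.r i₂ j₂ Z) ∘ a := by
    funext x
    exact (hab x).symm
  constructor
  · intro hX
    have h1 : DenseRange (b ∘ T.r i j X) := dense_of_surj hX hb b.surjective
    constructor
    · have h3 := dense_of_surj h1 continuous_fst Prod.fst_surjective
      refine h3.mono ?_
      rintro _ ⟨x, rfl⟩
      refine ⟨(a x).1, ?_⟩
      have := congrFun h2 x
      exact (congrArg Prod.fst this).symm
    · have h3 := dense_of_surj h1 continuous_snd Prod.snd_surjective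
      refine h3.mono ?_
      rintro _ ⟨x, rfl⟩
      refine ⟨(a x).2, ?_⟩
      have := congrFun h2 x
      exact (congrArg Prod.snd this).symm
  · rintro ⟨hY, hZ⟩
    have h1 : DenseRange (Prod.map (T.r i₁ j₁ Y) (T.r i₂ j₂ Z)) := hY.prodMap hZ
    have h3 := dense_of_surj h1 hb' b.symm.surjective
    refine h3.mono ?_
    rintro _ ⟨x, rfl⟩
    refine ⟨a.symm x, ?_⟩
    apply b.injective
    have := congrFun h2 (a.symm x)
    rw [Function.comp_apply, Function.comp_apply, a.apply_symm_apply] at this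
    rw [this, Function.comp_apply, b.apply_symm_apply]

/-- The morphism of spectra given by a homomorphism of algebras. -/
noncomputable def affMap {R A B : Type} [CommRing R] [CommRing A] [CommRing B] [Algebra R A] [Algebra R B]
    (e : A →ₐ[R] B) : aff R B ⟶ aff R A :=
  Over.homMk (Spec.map (CommRingCat.ofHom (e : A →+* B))) (by
    change Spec.map _ ≫ Spec.map _ = Spec.map _
    rw [← Spec.map_comp, ← CommRingCat.ofHom_comp, e.comp_algebraMap])

/-- Isomorphic algebras have isomorphic spectra. -/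
noncomputable def affIso {R A B : Type} [CommRing R] [CommRing A] [CommRing B] [Algebra R A] [Algebra R B]
    (e : A ≃ₐ[R] B) : aff R A ≅ aff R B where
  hom := affMap (e.symm : B →ₐ[R] A)
  inv := affMap (e : A →ₐ[R] B)
  hom_inv_id := by
    ext1
    change Spec.map _ ≫ Spec.map _ = 𝟙 _
    rw [← Spec.map_comp, ← CommRingCat.ofHom_comp, ← Spec.map_id]
    congr 1
    ext x
    exact e.symm_apply_apply x
  inv_hom_id := by
    ext1
    change Spec.map _ ≫ Spec.map _ = 𝟙 _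
    rw [← Spec.map_comp, ← CommRingCat.ofHom_comp, ← Spec.map_id]
    congr 1
    ext x
    exact e.apply_symm_apply x

lemma cx_same (hT : IsRegulator T) {A B : Type} [CommRing A] [CommRing B] [Algebra ℚ A] [Algebra ℚ B]
    (e : A ≃ₐ[ℚ] B) (i j : ℤ) : T.Same i j (Cx (aff ℚ A)) i j (Cx (aff ℚ B)) :=
  hT.iso i j _ _ ⟨(Over.pullback (Spec.map (CommRingCat.ofHom (algebraMap ℚ ℂ)))).mapIso (affIso e)⟩

/-- Common denominators. -/
lemma exists_int {n : ℕ} (p : MvPolynomial (Fin n) ℚ) : ∃ (N : ℤ) (q : MvPolynomial (Fin n) ℤ), N ≠ 0 ∧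
    map (Int.castRingHom ℚ) q = C (N : ℚ) * p := by
  induction p using MvPolynomial.induction_on with
  | C r =>
    refine ⟨r.den, C r.num, by exact_mod_cast r.den_nz, ?_⟩
    rw [map_C, ← C_mul]
    congr 1
    have := Rat.den_mul_eq_num r
    simpa using this.symm
  | add p q hp hq =>
    obtain ⟨N, p', hN, hp'⟩ := hp
    obtain ⟨N', q', hN', hq'⟩ := hq
    refine ⟨N * N', C N' * p' + C N * q', mul_ne_zero hN hN', ?_⟩
    rw [map_add, map_mul, map_mul, hp', hq', map_C, map_C]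
    push_cast
    simp only [map_mul, eq_intCast]
    ring
  | mul_X p i hp =>
    obtain ⟨N, p', hN, hp'⟩ := hp
    refine ⟨N, p' * X i, hN, ?_⟩
    rw [map_mul, hp', map_X, mul_assoc]

/-- A nonzero integral polynomial of degree at most three which defines a smooth hypersurface over `ℚ`. -/
structure SmoothCubic {n : ℕ} (F : MvPolynomial (Fin n) ℤ) : Prop where
  ne : F ≠ 0
  deg : F.totalDegree ≤ 3
  smooth : Algebra.Smooth ℚ (Hyp (map (Int.castRingHom ℚ) F))

/-- The complement `F ≠ 0` of a hypersurface in the affine space over `ℂ`, for an integral polynomial `F`. -/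
noncomputable def Compl {n : ℕ} (F : MvPolynomial (Fin n) ℤ) : Sch ℂ := compl (map (Int.castRingHom ℚ) F)

lemma exists_pres_int (A : Type) [CommRing A] [Algebra ℚ A] [Algebra.FiniteType ℚ A] :
    ∃ n₀ : ℕ, ∀ n, n₀ ≤ n → ∃ (m : ℕ) (g : Fin m → MvPolynomial (Fin n) ℤ),
      (∀ l, (g l).totalDegree ≤ 2) ∧
        Nonempty (Quo (fun l => map (Int.castRingHom ℚ) (g l)) ≃ₐ[ℚ] A) := by
  obtain ⟨n₀, h⟩ := exists_pres (R := ℚ) A
  refine ⟨n₀, fun n hn => ?_⟩
  obtain ⟨m, f, hf, ⟨e⟩⟩ := h n hn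
  choose N g hN hg using fun l => exists_int (f l)
  have hunit : ∀ l, IsUnit (C (N l : ℚ) : MvPolynomial (Fin n) ℚ) := fun l =>
    (isUnit_iff_ne_zero.mpr (by exact_mod_cast hN l)).map C
  refine ⟨m, g, fun l => ?_, ?_⟩
  · have h1 : (map (Int.castRingHom ℚ) (g l)).totalDegree = (g l).totalDegree := by
      rw [totalDegree, totalDegree, support_map_of_injective _ (Int.cast_injective (α := ℚ))]
    rw [← h1, hg]
    refine (totalDegree_mul _ _).trans ?_
    rw [totalDegree_C, zero_add]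
    exact hf l
  · have h2 : Ideal.span (Set.range fun l => map (Int.castRingHom ℚ) (g l)) =
        Ideal.span (Set.range f) := by
      apply le_antisymm
      · rw [Ideal.span_le]
        rintro _ ⟨l, rfl⟩
        change map (Int.castRingHom ℚ) (g l) ∈ Ideal.span (Set.range f)
        rw [hg]
        exact Ideal.mul_mem_left _ _ (Ideal.subset_span ⟨l, rfl⟩)
      · rw [Ideal.span_le]
        rintro _ ⟨l, rfl⟩
        change f l ∈ Ideal.span (Set.range fun l => map (Int.castRingHom ℚ) (g l))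
        obtain ⟨u, hu⟩ := hunit l
        have h3 : f l = (↑u⁻¹ : MvPolynomial (Fin n) ℚ) * map (Int.castRingHom ℚ) (g l) := by
          rw [hg, ← hu, ← mul_assoc, Units.inv_mul, one_mul]
        rw [h3]
        exact Ideal.mul_mem_left _ _ (Ideal.subset_span ⟨l, rfl⟩)
    exact ⟨(Ideal.quotientEquivAlgOfEq ℚ h2).trans e⟩

lemma map_hyp {n m : ℕ} (g : Fin m → MvPolynomial (Fin n) ℤ) :
    map (Int.castRingHom ℚ) (hyp g) = hyp fun l => map (Int.castRingHom ℚ) (g l) := by
  rw [hyp, hyp, map_sub, map_one, map_sum]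
  congr 1
  refine Finset.sum_congr rfl fun l _ => ?_
  rw [map_mul, map_X, map_rename]

lemma smoothVar_compl {n : ℕ} {F : MvPolynomial (Fin n) ℚ} (hF : F ≠ 0) :
    SmoothVar (aff ℚ (Localization.Away F)) where
  smooth := by
    have := smooth_away F
    exact (HasRingHomProperty.Spec_iff (P := @Smooth)).mpr (RingHom.smooth_algebraMap.mpr this)
  separated := by
    change IsSeparated (Spec.map _)
    infer_instance
  quasiCompact := by
    change QuasiCompact (Spec.map _)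
    infer_instance
  connected := by
    have : IsDomain (Localization.Away F) :=
      IsLocalization.isDomain_localization (powers_le_nonZeroDivisors_of_noZeroDivisors hF)
    change ConnectedSpace (PrimeSpectrum (Localization.Away F))
    infer_instance

lemma overNumberField_cx {Y : Sch ℚ} (hY : SmoothVar Y) : OverNumberField (Cx Y) :=
  ⟨Y, hY, 𝟙 _, by
    change IsOpenImmersion (𝟙 _)
    infer_instance, by
    change IsClosedImmersion (𝟙 _)
    infer_instance⟩

/-- The question for one scheme is the question for one complement of a cubic hypersurface. -/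
lemma exists_cubic (hT : IsRegulator T) {Y : Sch ℚ} (hY : SmoothVar Y) (i j : ℤ) :
    ∃ n₀ : ℕ, ∀ c : ℕ, n₀ ≤ c → ∃ (n : ℕ) (F : MvPolynomial (Fin n) ℤ), SmoothCubic F ∧
      (T.Dense i j (Cx Y) ↔ T.Dense (i + 2 * c) (j + c + 1) (Compl F)) := by
  obtain ⟨A, _, _, hdom, hft, hsm, hsame⟩ := hT.jouanolou Y hY
  obtain ⟨n₀, hpres⟩ := exists_pres_int A
  obtain ⟨m₀, g₀, _, ⟨e₀⟩⟩ := hpres n₀ le_rfl
  obtain ⟨d, hd⟩ : ∃ d : ℕ, ringKrullDim A = d := by
    have h0 : (0 : WithBot ℕ∞) ≤ ringKrullDim A := ringKrullDim_nonneg_of_nontrivial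
    have h1 : ringKrullDim A ≤ n₀ := by
      rw [← ringKrullDim_eq_of_ringEquiv e₀.toRingEquiv]
      refine (ringKrullDim_quotient_le _).trans ?_
      rw [MvPolynomial.ringKrullDim_of_isNoetherianRing, ringKrullDim_eq_zero_of_field, zero_add,
        Nat.card_eq_fintype_card, Fintype.card_fin]
    obtain ⟨d', hd'⟩ := WithBot.ne_bot_iff_exists.mp (ne_of_gt (lt_of_lt_of_le (WithBot.bot_lt_coe 0) h0))
    rw [← hd'] at h1 ⊢
    have h2 : d' ≤ (n₀ : ℕ∞) := WithBot.coe_le_coe.mp h1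
    obtain ⟨d, rfl⟩ := ENat.ne_top_iff_exists.mp (ne_top_of_le_ne_top (ENat.coe_ne_top n₀) h2)
    exact ⟨d, rfl⟩
  refine ⟨max n₀ 1, fun c hc => ?_⟩
  obtain ⟨m, g, hg, ⟨e⟩⟩ := hpres (d + c) (by omega)
  let f : Fin m → MvPolynomial (Fin (d + c)) ℚ := fun l => map (Int.castRingHom ℚ) (g l)
  have hfdom : IsDomain (Quo f) := e.toMulEquiv.isDomain A
  have hfsm : Algebra.Smooth ℚ (Quo f) := Algebra.Smooth.of_equiv e.symm
  have hfdim : ringKrullDim (Quo f) + c = (d + c : ℕ) := by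
    rw [ringKrullDim_eq_of_ringEquiv e.toRingEquiv, hd]
    norm_cast
  have h1 := hT.gysin (d + c) m c f hfdom hfsm (by omega) hfdim i j
  have h2 := hT.divisor (d + c + m) (hyp f) (hyp_ne_zero f) (smooth_hyp f) (i + 2 * c - 1) (j + c)
  have h3 : hyp f = map (Int.castRingHom ℚ) (hyp g) := (map_hyp g).symm
  have h4 := cx_same hT e i j
  refine ⟨d + c + m, hyp g, ⟨hyp_ne_zero g, hyp_deg g hg, ?_⟩, ?_⟩
  · rw [← h3]
    exact smooth_hyp f
  · have h5 : Compl (hyp g) = compl (hyp f) := by rw [Compl, ← h3]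
    rw [sub_add_cancel] at h2
    rw [h5, sum_iff h2, sum_iff h1, same_iff (hsame i j), same_iff h4]
    exact ⟨fun h => ⟨hT.point _ _, hT.point _ _, h⟩, fun h => h.2.2⟩

lemma smoothVar_cubic {n : ℕ} {F : MvPolynomial (Fin n) ℤ} (hF : SmoothCubic F) :
    SmoothVar (aff ℚ (Localization.Away (map (Int.castRingHom ℚ) F))) := by
  refine smoothVar_compl fun h0 => hF.ne ?_
  exact map_injective _ Int.cast_injective (by rw [h0, map_zero])

/-- The question for `K_e` of one scheme is the question for `K_{e+2k}` of another one. -/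
lemma iterate (hT : IsRegulator T) (k : ℕ) : ∀ {Y : Sch ℚ} (_ : SmoothVar Y) (i j : ℤ),
    ∃ (c : ℕ) (Y' : Sch ℚ), SmoothVar Y' ∧
      (T.Dense i j (Cx Y) ↔ T.Dense (i + 2 * c) (j + c + k) (Cx Y')) := by
  induction k with
  | zero =>
    intro Y hY i j
    refine ⟨0, Y, hY, ?_⟩
    simp
  | succ k ih =>
    intro Y hY i j
    obtain ⟨n₀, h⟩ := exists_cubic hT hY i j
    obtain ⟨n, F, hF, hiff⟩ := h n₀ le_rfl
    obtain ⟨c, Y', hY', hiff'⟩ := ih (smoothVar_cubic hF) (i + 2 * n₀) (j + n₀ + 1)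
    refine ⟨n₀ + c, Y', hY', hiff.trans ?_⟩
    change T.Dense (i + 2 * n₀) (j + n₀ + 1) (Cx _) ↔ _ at hiff'
    refine hiff'.trans ?_
    have h1 : i + 2 * (n₀ : ℤ) + 2 * c = i + 2 * ((n₀ + c : ℕ) : ℤ) := by
      push_cast
      ring
    have h2 : j + (n₀ : ℤ) + 1 + c + k = j + ((n₀ + c : ℕ) : ℤ) + ((k + 1 : ℕ) : ℤ) := by
      push_cast
      ring
    rw [h1, h2]

/-- A set of bidegrees that contains for all `i, j` some `k` and arbitrarily large `c` with
`(i + 2c, j + c + k + 1)`. -/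
def Cofinal (W : Set (ℤ × ℤ)) : Prop :=
  ∀ i j : ℤ, ∃ k : ℕ, ∀ N : ℕ, ∃ c : ℕ, N ≤ c ∧ (i + 2 * c, j + c + k + 1) ∈ W

lemma exists_cubic_mem (hT : IsRegulator T) {W : Set (ℤ × ℤ)} (hW : Cofinal W) {Y : Sch ℚ}
    (hY : SmoothVar Y) (i j : ℤ) :
    ∃ (n : ℕ) (F : MvPolynomial (Fin n) ℤ) (i' j' : ℤ), SmoothCubic F ∧ (i', j') ∈ W ∧
      (T.Dense i j (Cx Y) ↔ T.Dense i' j' (Compl F)) := by
  obtain ⟨k, hk⟩ := hW i j
  obtain ⟨c₀, Y', hY', hiff⟩ := iterate hT k hY i j
  obtain ⟨n₀, h⟩ := exists_cubic hT hY' (i + 2 * c₀) (j + c₀ + k)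
  obtain ⟨c, hc, hcW⟩ := hk (c₀ + n₀)
  obtain ⟨n, F, hF, hiff'⟩ := h (c - c₀) (by omega)
  have h1 : i + 2 * (c₀ : ℤ) + 2 * ((c - c₀ : ℕ) : ℤ) = i + 2 * c := by
    rw [Nat.cast_sub (by omega)]
    ring
  have h2 : j + (c₀ : ℤ) + k + ((c - c₀ : ℕ) : ℤ) + 1 = j + c + k + 1 := by
    rw [Nat.cast_sub (by omega)]
    ring
  rw [h1, h2] at hiff'
  exact ⟨n, F, _, _, hF, hcW, hiff.trans hiff'⟩

/-- The density of the regulators for all smooth schemes over number fields is equivalent to the one for the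
complements of smooth cubic hypersurfaces. -/
theorem main (hT : IsRegulator T) {W : Set (ℤ × ℤ)} (hW : Cofinal W) :
    (∀ X, OverNumberField X → ∀ i j, T.Dense i j X) ↔
      ∀ (n : ℕ) (F : MvPolynomial (Fin n) ℤ), SmoothCubic F → ∀ i j, (i, j) ∈ W →
        T.Dense i j (Compl F) := by
  constructor
  · intro h n F hF i j _
    exact h _ (overNumberField_cx (smoothVar_cubic hF)) i j
  · rintro h X ⟨Y, hY, k, ho, hc⟩ i j
    obtain ⟨n, F, i', j', hF, hW', hiff⟩ := exists_cubic_mem hT hW hY i j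
    obtain ⟨X', hX'⟩ := hT.clopen i j Y hY X k ho hc
    exact ((sum_iff hX').mp (hiff.mpr (h n F hF i' j' hW'))).1

/-- For instance: only large differences `i - j` and only `K_e` with large `e = 2 j - i`. -/
lemma cofinal_large (B : ℤ) : Cofinal {p | B ≤ p.1 - p.2 ∧ B ≤ 2 * p.2 - p.1} := by
  intro i j
  obtain ⟨k, hk⟩ : ∃ k : ℕ, B ≤ 2 * (j + k + 1) - i := ⟨(B + |i| + 2 * |j|).toNat, by
    have h1 := Int.self_le_toNat (B + |i| + 2 * |j|)
    have h2 := le_abs_self i
    have h3 := neg_abs_le j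
    have h4 : (0 : ℤ) ≤ ((B + |i| + 2 * |j|).toNat : ℤ) := Int.natCast_nonneg _
    linarith⟩
  refine ⟨k, fun N => ⟨N + (B + |i| + |j| + k + 1).toNat, by omega, ?_, ?_⟩⟩
  · have h1 := Int.self_le_toNat (B + |i| + |j| + k + 1)
    have h2 := neg_abs_le i
    have h3 := le_abs_self j
    have h4 : (0 : ℤ) ≤ (N : ℤ) := Int.natCast_nonneg _
    push_cast
    change B ≤ (i + 2 * (N + _)) - (j + (N + _) + k + 1)
    linarith
  · change B ≤ 2 * (j + _ + k + 1) - (i + 2 * _)
    linarith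

end Pool.Agent.Run7.h954.DR
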