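import Pool.Agent.Run7.h954.DR.Defs

/-!
# Presentations by quadratic polynomials

Every algebra of finite type over a noetherian ring has presentations by polynomials of degree at most two
with every large number of variables.
-/

set_option autoImplicit false

open MvPolynomial

namespace Pool.Agent.Run7.h954.DR

variable {R : Type} [CommRing R]

/-- A presentation by polynomials of degree at most two. -/
structure QP (R : Type) [CommRing R] (A : Type) [CommRing A] [Algebra R A] where
  V : Type
  fin : Finite V
  φ : MvPolynomial V R →ₐ[R] A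
  G : Set (MvPolynomial V R)
  finG : G.Finite
  surj : Function.Surjective φ
  ker : RingHom.ker φ = Ideal.span G
  deg : ∀ g ∈ G, g.totalDegree ≤ 2

lemma totalDegree_X_le' {V : Type} (v : V) : (X v : MvPolynomial V R).totalDegree ≤ 1 := by
  rcases subsingleton_or_nontrivial R with h | h
  · rw [Subsingleton.elim (X v : MvPolynomial V R) 0, totalDegree_zero]
    norm_num
  · rw [totalDegree_X]

variable {A : Type} [CommRing A] [Algebra R A]

/-- The values of the variables. -/
def QP.marks (P : QP R A) : Set A := Set.range fun v => P.φ (X v)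

section

variable (P : QP R A) (p : MvPolynomial P.V R)

/-- the homomorphism with one more variable -/
noncomputable def nφ : MvPolynomial (Option P.V) R →ₐ[R] A :=
  aeval fun o => o.elim (P.φ p) fun v => P.φ (X v)

/-- the new relation -/
noncomputable def nr : MvPolynomial (Option P.V) R := X none - rename some p

/-- the new set of relations -/
def nG : Set (MvPolynomial (Option P.V) R) := (rename some '' P.G) ∪ {nr P p}

lemma nφ_rename (q : MvPolynomial P.V R) : nφ P p (rename some q) = P.φ q := by
  have h : (nφ P p).comp (rename some) = P.φ := by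
    apply MvPolynomial.algHom_ext
    intro v
    rw [AlgHom.comp_apply, rename_X, nφ, aeval_X]
    rfl
  exact DFunLike.congr_fun h q

lemma nφ_none : nφ P p (X none) = P.φ p := by
  rw [nφ, aeval_X]
  rfl

lemma nφ_nr : nφ P p (nr P p) = 0 := by
  rw [nr, map_sub, nφ_rename, nφ_none, sub_self]

lemma nker : RingHom.ker (nφ P p) = Ideal.span (nG P p) := by
  apply le_antisymm
  · intro q hq
    let J := Ideal.span (nG P p)
    let ψ : MvPolynomial (Option P.V) R →ₐ[R] MvPolynomial P.V R :=
      aeval fun o => o.elim p X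
    have hJ : ∀ r ∈ Ideal.span P.G, rename some r ∈ J := by
      intro r hr
      have h1 : Ideal.map (rename some : MvPolynomial P.V R →ₐ[R] _).toRingHom (Ideal.span P.G) ≤ J := by
        rw [Ideal.map_span]
        exact Ideal.span_mono fun x hx => Or.inl hx
      exact h1 (Ideal.mem_map_of_mem (rename some : MvPolynomial P.V R →ₐ[R] _).toRingHom hr)
    have h2 : Ideal.Quotient.mkₐ R J = ((Ideal.Quotient.mkₐ R J).comp (rename some)).comp ψ := by
      apply MvPolynomial.algHom_ext
      intro o
      rw [AlgHom.comp_apply, AlgHom.comp_apply]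
      have h3 : ψ (X o) = o.elim p X := aeval_X _ _
      rw [h3]
      match o with
      | none =>
        have h4 : Ideal.Quotient.mkₐ R J (nr P p) = 0 :=
          Ideal.Quotient.eq_zero_iff_mem.mpr (Ideal.subset_span (Or.inr rfl))
        rw [nr, map_sub, sub_eq_zero] at h4
        exact h4
      | some v =>
        change _ = Ideal.Quotient.mkₐ R J (rename some (X v))
        rw [rename_X]
    have h3 : q - rename some (ψ q) ∈ J := by
      rw [← Ideal.Quotient.eq_zero_iff_mem, map_sub, sub_eq_zero]
      exact DFunLike.congr_fun h2 q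
    have hle : J ≤ RingHom.ker (nφ P p) := by
      rw [Ideal.span_le]
      rintro x (⟨y, hy, rfl⟩ | rfl)
      · change nφ P p (rename some y) = 0
        rw [nφ_rename]
        have : y ∈ RingHom.ker P.φ := by
          rw [P.ker]
          exact Ideal.subset_span hy
        exact this
      · exact nφ_nr P p
    have h4 : nφ P p (q - rename some (ψ q)) = 0 := hle h3
    have h5 : P.φ (ψ q) = 0 := by
      rw [map_sub, nφ_rename] at h4
      have : nφ P p q = 0 := hq
      rw [this, zero_sub, neg_eq_zero] at h4
      exact h4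
    have h6 : rename some (ψ q) ∈ J := hJ _ (by rw [← P.ker]; exact h5)
    have h7 := J.add_mem h3 h6
    rwa [sub_add_cancel] at h7
  · rw [Ideal.span_le]
    rintro x (⟨y, hy, rfl⟩ | rfl)
    · change nφ P p (rename some y) = 0
      rw [nφ_rename]
      have : y ∈ RingHom.ker P.φ := by
        rw [P.ker]
        exact Ideal.subset_span hy
      exact this
    · exact nφ_nr P p

lemma nr_deg (hp : p.totalDegree ≤ 2) : (nr P p).totalDegree ≤ 2 := by
  refine (totalDegree_sub _ _).trans (max_le ?_ ?_)
  · refine (totalDegree_X_le' _).trans (by norm_num)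
  · exact (totalDegree_rename_le _ _).trans hp

/-- The presentation with one more variable, whose value is the value of `p`. -/
noncomputable def QP.next (hp : p.totalDegree ≤ 2) : QP R A where
  V := Option P.V
  fin := by
    have := P.fin
    infer_instance
  φ := nφ P p
  G := nG P p
  finG := (P.finG.image _).union (Set.finite_singleton _)
  surj := fun a => by
    obtain ⟨q, hq⟩ := P.surj a
    exact ⟨rename some q, by rw [nφ_rename, hq]⟩
  ker := nker P p
  deg := by
    rintro x (⟨y, hy, rfl⟩ | rfl)
    · exact (totalDegree_rename_le _ _).trans (P.deg y hy)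
    · exact nr_deg P p hp

lemma next_marks (hp : p.totalDegree ≤ 2) : P.marks ⊆ (P.next p hp).marks := by
  rintro _ ⟨v, rfl⟩
  refine ⟨some v, ?_⟩
  change nφ P p (X (some v)) = P.φ (X v)
  rw [← rename_X, nφ_rename]

lemma next_new (hp : p.totalDegree ≤ 2) : P.φ p ∈ (P.next p hp).marks := ⟨none, nφ_none P p⟩

end

/-- The elements which can be made values of variables in all presentations extending `P0`. -/
def Reach (P0 : QP R A) : Set A :=
  {a | ∀ P : QP R A, P0.marks ⊆ P.marks → ∃ P' : QP R A, P.marks ⊆ P'.marks ∧ a ∈ P'.marks}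

variable {P0 : QP R A}

lemma reach_mark {a : A} (h : a ∈ P0.marks) : a ∈ Reach P0 := fun P hP => ⟨P, le_rfl, hP h⟩

lemma reach_C (r : R) : algebraMap R A r ∈ Reach P0 := by
  intro P _
  have hp : (C r : MvPolynomial P.V R).totalDegree ≤ 2 := by rw [totalDegree_C]; norm_num
  refine ⟨P.next _ hp, next_marks P _ hp, ?_⟩
  have h1 := next_new P _ hp
  have h2 : P.φ (C r) = algebraMap R A r := AlgHom.commutes P.φ r
  rwa [h2] at h1

lemma reach_mul {a b : A} (ha : a ∈ Reach P0) (hb : b ∈ Reach P0) : a * b ∈ Reach P0 := by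
  intro P hP
  obtain ⟨P1, h1, hi⟩ := ha P hP
  obtain ⟨P2, h2, j, hj⟩ := hb P1 (hP.trans h1)
  obtain ⟨i', hi'⟩ := h2 hi
  have hp : (X i' * X j : MvPolynomial P2.V R).totalDegree ≤ 2 :=
    (totalDegree_mul _ _).trans (add_le_add (totalDegree_X_le' _) (totalDegree_X_le' _))
  refine ⟨P2.next _ hp, (h1.trans h2).trans (next_marks P2 _ hp), ?_⟩
  have h3 := next_new P2 _ hp
  rw [map_mul] at h3
  change P2.φ (X i') = a at hi'
  change P2.φ (X j) = b at hj
  rwa [hi', hj] at h3

lemma reach_add {a b : A} (ha : a ∈ Reach P0) (hb : b ∈ Reach P0) : a + b ∈ Reach P0 := by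
  intro P hP
  obtain ⟨P1, h1, hi⟩ := ha P hP
  obtain ⟨P2, h2, j, hj⟩ := hb P1 (hP.trans h1)
  obtain ⟨i', hi'⟩ := h2 hi
  have hp : (X i' + X j : MvPolynomial P2.V R).totalDegree ≤ 2 :=
    (totalDegree_add _ _).trans
      (max_le ((totalDegree_X_le' _).trans (by norm_num)) ((totalDegree_X_le' _).trans (by norm_num)))
  refine ⟨P2.next _ hp, (h1.trans h2).trans (next_marks P2 _ hp), ?_⟩
  have h3 := next_new P2 _ hp
  rw [map_add] at h3
  change P2.φ (X i') = a at hi'
  change P2.φ (X j) = b at hj
  rwa [hi', hj] at h3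

/-- The presentation of a polynomial ring. -/
noncomputable def base (R : Type) [CommRing R] (n : ℕ) : QP R (MvPolynomial (Fin n) R) where
  V := Fin n
  fin := inferInstance
  φ := AlgHom.id R _
  G := ∅
  finG := Set.finite_empty
  surj := Function.surjective_id
  ker := by
    rw [Ideal.span_empty]
    exact (RingHom.injective_iff_ker_eq_bot _).mp Function.injective_id
  deg := by simp

lemma reach_all (n : ℕ) (f : MvPolynomial (Fin n) R) : f ∈ Reach (base R n) := by
  induction f using MvPolynomial.induction_on with
  | C r => exact reach_C r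
  | add p q hp hq => exact reach_add hp hq
  | mul_X p i hp => exact reach_mul hp (reach_mark ⟨i, rfl⟩)

lemma reach_set (n : ℕ) (F : Finset (MvPolynomial (Fin n) R)) :
    ∃ P : QP R (MvPolynomial (Fin n) R), (base R n).marks ⊆ P.marks ∧ ∀ f ∈ F, f ∈ P.marks := by
  classical
  induction F using Finset.induction_on with
  | empty => exact ⟨base R n, le_rfl, by simp⟩
  | insert f F _ ih =>
    obtain ⟨P, h1, h2⟩ := ih
    obtain ⟨P', h3, h4⟩ := reach_all n f P h1
    refine ⟨P', h1.trans h3, fun g hg => ?_⟩
    rcases Finset.mem_insert.mp hg with rfl | hg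
    · exact h4
    · exact h3 (h2 g hg)

/-- Algebras of finite type have presentations. -/
lemma exists_qp [IsNoetherianRing R] (A : Type) [CommRing A] [Algebra R A] [Algebra.FiniteType R A] :
    Nonempty (QP R A) := by
  classical
  obtain ⟨n, π, hπ⟩ := Algebra.FiniteType.iff_quotient_mvPolynomial''.mp
    (inferInstance : Algebra.FiniteType R A)
  obtain ⟨F, hF⟩ := (isNoetherianRing_iff_ideal_fg _).mp
    (inferInstance : IsNoetherianRing (MvPolynomial (Fin n) R)) (RingHom.ker π)
  obtain ⟨P, hP0, hP⟩ := reach_set n F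
  by_cases hne : Nonempty P.V
  · choose! v hv using hP
    exact ⟨{
      V := P.V
      fin := P.fin
      φ := π.comp P.φ
      G := P.G ∪ (fun f => X (v f)) '' (F : Set (MvPolynomial (Fin n) R))
      finG := P.finG.union (F.finite_toSet.image _)
      surj := fun a => by
        obtain ⟨b, rfl⟩ := hπ a
        obtain ⟨c, rfl⟩ := P.surj b
        exact ⟨c, rfl⟩
      ker := by
        have h1 : RingHom.ker (π.comp P.φ) = Ideal.comap (P.φ : MvPolynomial P.V R →+* _)
            (RingHom.ker π) := rfl
        have h2 : RingHom.ker π = Ideal.map (P.φ : MvPolynomial P.V R →+* _)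
            (Ideal.span ((fun f => X (v f)) '' (F : Set (MvPolynomial (Fin n) R)))) := by
          rw [Ideal.map_span, ← hF, Set.image_image]
          congr 1
          ext x
          constructor
          · intro hx
            exact ⟨x, hx, hv x hx⟩
          · rintro ⟨y, hy, rfl⟩
            have : (P.φ : MvPolynomial P.V R →+* _) (X (v y)) = y := hv y hy
            change (P.φ : MvPolynomial P.V R →+* MvPolynomial (Fin n) R) (X (v y)) ∈ _
            rw [this]
            exact hy
        have h3 : RingHom.ker (P.φ : MvPolynomial P.V R →+* MvPolynomial (Fin n) R) =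
            Ideal.span P.G := P.ker
        rw [h1, h2, Ideal.comap_map_of_surjective'
          (P.φ : MvPolynomial P.V R →+* MvPolynomial (Fin n) R) P.surj, Ideal.span_union, sup_comm,
          h3]
      deg := by
        rintro g (hg | ⟨f, _, rfl⟩)
        · exact P.deg g hg
        · exact (totalDegree_X_le' _).trans (by norm_num) }⟩
  · have hF0 : F = ∅ := by
      rw [Finset.eq_empty_iff_forall_notMem]
      intro f hf
      obtain ⟨v, _⟩ := hP f hf
      exact hne ⟨v⟩
    rw [hF0, Finset.coe_empty, Ideal.span_empty] at hF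
    exact ⟨{
      V := P.V
      fin := P.fin
      φ := π.comp P.φ
      G := P.G
      finG := P.finG
      surj := fun a => by
        obtain ⟨b, rfl⟩ := hπ a
        obtain ⟨c, rfl⟩ := P.surj b
        exact ⟨c, rfl⟩
      ker := by
        rw [← P.ker]
        ext q
        change π (P.φ q) = 0 ↔ P.φ q = 0
        constructor
        · intro h
          have : P.φ q ∈ RingHom.ker π := h
          rw [← hF] at this
          exact this
        · intro h
          rw [h, map_zero]
      deg := P.deg }⟩

/-- Presentations with any large number of variables. -/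
lemma exists_qp_card [IsNoetherianRing R] (A : Type) [CommRing A] [Algebra R A] [Algebra.FiniteType R A] :
    ∃ n₀ : ℕ, ∀ n, n₀ ≤ n → ∃ P : QP R A, Nat.card P.V = n := by
  obtain ⟨P⟩ := exists_qp (R := R) A
  refine ⟨Nat.card P.V, fun n hn => ?_⟩
  induction n, hn using Nat.le_induction with
  | base => exact ⟨P, rfl⟩
  | succ n _ ih =>
    obtain ⟨Q, hQ⟩ := ih
    have := Q.fin
    refine ⟨Q.next 0 (by rw [totalDegree_zero]; norm_num), ?_⟩
    change Nat.card (Option Q.V) = n + 1
    rw [Finite.card_option, hQ]

lemma QP.toFin (P : QP R A) : ∃ (m : ℕ) (f : Fin m → MvPolynomial (Fin (Nat.card P.V)) R),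
    (∀ l, (f l).totalDegree ≤ 2) ∧ Nonempty (Quo f ≃ₐ[R] A) := by
  classical
  have := P.fin
  let e : P.V ≃ Fin (Nat.card P.V) := Finite.equivFin P.V
  let E : MvPolynomial P.V R ≃ₐ[R] MvPolynomial (Fin (Nat.card P.V)) R := renameEquiv R e
  have := P.finG.fintype
  let G' : Finset (MvPolynomial P.V R) := P.finG.toFinset
  let g : Fin G'.card → MvPolynomial P.V R := fun l => (G'.equivFin.symm l : MvPolynomial P.V R)
  have hg : Set.range g = P.G := by
    ext x
    constructor
    · rintro ⟨l, rfl⟩
      exact P.finG.mem_toFinset.mp (G'.equivFin.symm l).2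
    · intro hx
      refine ⟨G'.equivFin ⟨x, P.finG.mem_toFinset.mpr hx⟩, ?_⟩
      simp [g]
  refine ⟨G'.card, fun l => E (g l), fun l => ?_, ?_⟩
  · refine (totalDegree_rename_le _ _).trans (P.deg _ ?_)
    rw [← hg]
    exact ⟨l, rfl⟩
  · have h1 : Ideal.span (Set.range fun l => E (g l)) =
        (RingHom.ker P.φ).map (E : MvPolynomial P.V R →+* MvPolynomial (Fin (Nat.card P.V)) R) := by
      rw [P.ker, Ideal.map_span, ← hg, ← Set.range_comp]
      rfl
    exact ⟨(Ideal.quotientEquivAlg _ _ E h1).symm.trans
      (Ideal.quotientKerAlgEquivOfSurjective P.surj)⟩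

theorem exists_pres [IsNoetherianRing R] (A : Type) [CommRing A] [Algebra R A] [Algebra.FiniteType R A] :
    ∃ n₀ : ℕ, ∀ n, n₀ ≤ n → ∃ (m : ℕ) (f : Fin m → MvPolynomial (Fin n) R),
      (∀ l, (f l).totalDegree ≤ 2) ∧ Nonempty (Quo f ≃ₐ[R] A) := by
  obtain ⟨n₀, h⟩ := exists_qp_card (R := R) A
  refine ⟨n₀, fun n hn => ?_⟩
  obtain ⟨P, rfl⟩ := h n hn
  exact P.toFin

end Pool.Agent.Run7.h954.DR
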